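import Pool.Agent.R213.Schat.Op

open Filter Topology Set Complex
open scoped Real InnerProductSpace ENNReal

namespace R213Schat

variable {H : Type*} [NormedAddCommGroup H] [InnerProductSpace ℂ H] [CompleteSpace H]
variable {K : Type*} [NormedAddCommGroup K] [InnerProductSpace ℂ K] [CompleteSpace K]

omit [CompleteSpace H] [CompleteSpace K] in
lemma norm_V_le (V : H →ₗᵢ[ℂ] K) : ‖V.toContinuousLinearMap‖ ≤ 1 := V.norm_toContinuousLinearMap_le

lemma compress_norm_le (V : H →ₗᵢ[ℂ] K) (A : K →L[ℂ] K) : ‖compress V A‖ ≤ ‖A‖ := by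
  unfold compress
  refine (ContinuousLinearMap.opNorm_comp_le _ _).trans ?_
  have h1 : ‖ContinuousLinearMap.adjoint V.toContinuousLinearMap‖ ≤ 1 := by
    rw [LinearIsometryEquiv.norm_map]; exact norm_V_le V
  have h2 := (ContinuousLinearMap.opNorm_comp_le A V.toContinuousLinearMap)
  have h3 : ‖A ∘L V.toContinuousLinearMap‖ ≤ ‖A‖ := by
    refine h2.trans ?_
    have := mul_le_mul_of_nonneg_left (norm_V_le V) (norm_nonneg A)
    simpa using this
  have h4 := mul_le_mul h1 h3 (norm_nonneg _) zero_le_one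
  simpa using h4

lemma compress_add (V : H →ₗᵢ[ℂ] K) (A B : K →L[ℂ] K) :
    compress V (A + B) = compress V A + compress V B := by
  ext x; simp [compress]

lemma compress_sub (V : H →ₗᵢ[ℂ] K) (A B : K →L[ℂ] K) :
    compress V (A - B) = compress V A - compress V B := by
  ext x; simp [compress]

lemma compress_smul (V : H →ₗᵢ[ℂ] K) (c : ℂ) (A : K →L[ℂ] K) :
    compress V (c • A) = c • compress V A := by
  ext x; simp [compress]

lemma compress_sum (V : H →ₗᵢ[ℂ] K) (s : Finset ℕ) (A : ℕ → K →L[ℂ] K) :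
    compress V (∑ k ∈ s, A k) = ∑ k ∈ s, compress V (A k) := by
  ext x; simp [compress]

/-- A unitary dilation turns trigonometric polynomials into trigonometric polynomials. -/
lemma compress_trigOp {T : H →L[ℂ] H} {V : H →ₗᵢ[ℂ] K} {U : K →L[ℂ] K}
    (h : IsUnitaryDilation T V U) (m : ℕ) (a b : ℕ → ℂ) :
    compress V (trigOp m a b U) = trigOp m a b T := by
  unfold trigOp
  rw [compress_sum]
  refine Finset.sum_congr rfl fun k _ => ?_
  rw [compress_add, compress_smul, compress_smul, h.pow, h.pow_star]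

lemma cfc_trig {U : K →L[ℂ] K} (hU : U ∈ unitary (K →L[ℂ] K)) (m : ℕ) (a b : ℕ → ℂ) :
    cfc (trigVal m a b) U = trigOp m a b U := by
  have hn : IsStarNormal U := ⟨by
    have h1 := (Unitary.mem_iff.mp hU)
    rw [commute_iff_eq, h1.1, h1.2]⟩
  have e1 : trigVal m a b = ∑ k ∈ Finset.range m, fun z : ℂ => (a k * z ^ k + b k * star z ^ k) := by
    ext z
    simp [trigVal, Finset.sum_apply]
  rw [e1, cfc_sum _ _ _ (fun k _ => by fun_prop)]
  unfold trigOp
  refine Finset.sum_congr rfl fun k _ => ?_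
  rw [cfc_add U (fun z => a k * z ^ k) (fun z => b k * star z ^ k) (by fun_prop) (by fun_prop),
    cfc_const_mul _ _ _ (by fun_prop), cfc_const_mul _ _ _ (by fun_prop), cfc_pow_id U k,
    cfc_pow (fun z : ℂ => star z) k U (by fun_prop), cfc_star_id (a := U)]

lemma cfc_sub_le {U : K →L[ℂ] K} (hU : U ∈ unitary (K →L[ℂ] K)) (m : ℕ) :
    ‖cfc ff U - trigOp m (fun k => (cf k : ℂ)) (fun k => (cf k : ℂ)) U‖ ≤
      2 * ∑' k : ℕ, cf (k + m) := by
  have hn : IsStarNormal U := ⟨by
    have h1 := (Unitary.mem_iff.mp hU)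
    rw [commute_iff_eq, h1.1, h1.2]⟩
  rw [← cfc_trig hU]
  have hsp : spectrum ℂ U ⊆ Metric.closedBall 0 1 :=
    (spectrum.subset_circle_of_unitary hU).trans Metric.sphere_subset_closedBall
  have hf : ContinuousOn ff (spectrum ℂ U) := ff_continuousOn.mono hsp
  have hfm : trigVal m (fun k => (cf k : ℂ)) (fun k => (cf k : ℂ)) = fm m := rfl
  rw [hfm, ← cfc_sub ff (fm m) U hf (fm_continuous m).continuousOn]
  apply norm_cfc_le
  · exact mul_nonneg two_pos.le (tsum_nonneg fun k => cf_nonneg _)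
  · intro x hx
    exact ff_sub_fm_le (by simpa using hsp hx) m

variable {b : ℕ → H}

/-- For every unitary dilation `U` of `T = TT b r N`, the compression of `f(U)` is `XX b r N`. -/
lemma dilation_value (hb : Orthonormal ℂ b) {r : ℝ} (hr0 : 0 ≤ r) (hr1 : r ≤ 1) (N : ℕ)
    {V : H →ₗᵢ[ℂ] K} {U : K →L[ℂ] K} (h : IsUnitaryDilation (TT b r N) V U) :
    compress V (cfc ff U) = XX b r N := by
  refine tendsto_nhds_unique ?_ (trigOp_tendsto hb hr0 hr1 N)
  rw [tendsto_iff_norm_sub_tendsto_zero]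
  refine squeeze_zero (fun _ => norm_nonneg _) (fun m => ?_) tail_tendsto
  rw [← compress_trigOp h, ← compress_sub]
  refine (compress_norm_le V _).trans ?_
  rw [norm_sub_rev]
  exact cfc_sub_le h.unit m

end R213Schat
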