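import Mathlib

open Filter Topology Set Complex
open scoped Real

namespace R213Schat

/-- Coefficients `1 / (2 k ^ 2)` (zero at `k = 0`). -/
noncomputable def cf (k : ℕ) : ℝ := 1 / (2 * (k:ℝ) ^ 2)

lemma cf_nonneg (k : ℕ) : 0 ≤ cf k := by unfold cf; positivity

lemma summable_cf : Summable cf := by
  have h : Summable (fun k : ℕ => 1 / (k:ℝ) ^ 2) := Real.summable_one_div_nat_pow.mpr (by norm_num)
  refine (h.mul_left (1/2)).congr ?_
  intro k
  unfold cf
  by_cases hk : (k:ℝ) = 0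
  · simp [hk]
  · field_simp

/-- The function `f z = ∑ (z ^ k + conj z ^ k) / (2 k ^ 2)`; on the unit circle
`f (exp (i θ)) = ∑ cos (k θ) / k ^ 2`. -/
noncomputable def ff (z : ℂ) : ℂ := ∑' k : ℕ, (cf k : ℂ) * (z ^ k + (starRingEnd ℂ z) ^ k)

/-- Partial sums. -/
noncomputable def fm (m : ℕ) (z : ℂ) : ℂ :=
  ∑ k ∈ Finset.range m, ((cf k : ℂ) * z ^ k + (cf k : ℂ) * (starRingEnd ℂ z) ^ k)

lemma term_norm_le {z : ℂ} (hz : ‖z‖ ≤ 1) (k : ℕ) :
    ‖(cf k : ℂ) * (z ^ k + (starRingEnd ℂ z) ^ k)‖ ≤ 2 * cf k := by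
  rw [norm_mul, Complex.norm_real, Real.norm_of_nonneg (cf_nonneg k)]
  have h1 : ‖z ^ k + (starRingEnd ℂ z) ^ k‖ ≤ 2 := by
    refine (norm_add_le _ _).trans ?_
    rw [norm_pow, norm_pow, RCLike.norm_conj]
    have := pow_le_one₀ (n := k) (norm_nonneg z) hz
    linarith
  nlinarith [cf_nonneg k]

lemma summable_term {z : ℂ} (hz : ‖z‖ ≤ 1) :
    Summable (fun k : ℕ => (cf k : ℂ) * (z ^ k + (starRingEnd ℂ z) ^ k)) :=
  Summable.of_norm_bounded (summable_cf.mul_left 2) (term_norm_le hz)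

lemma ff_sub_fm_le {z : ℂ} (hz : ‖z‖ ≤ 1) (m : ℕ) :
    ‖ff z - fm m z‖ ≤ 2 * ∑' k : ℕ, cf (k + m) := by
  have h1 : ff z - fm m z = ∑' k : ℕ, (cf (k+m) : ℂ) * (z ^ (k+m) + (starRingEnd ℂ z) ^ (k+m)) := by
    unfold ff fm
    rw [← (summable_term hz).sum_add_tsum_nat_add m]
    have : ∑ k ∈ Finset.range m, ((cf k : ℂ) * z ^ k + (cf k : ℂ) * (starRingEnd ℂ z) ^ k) =
        ∑ k ∈ Finset.range m, (cf k : ℂ) * (z ^ k + (starRingEnd ℂ z) ^ k) :=
      Finset.sum_congr rfl (fun k _ => by ring)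
    rw [this]; ring
  rw [h1, ← tsum_mul_left]
  have hs : Summable (fun k => 2 * cf (k + m)) :=
    ((summable_nat_add_iff m).mpr summable_cf).mul_left 2
  exact tsum_of_norm_bounded hs.hasSum (fun k => term_norm_le hz (k+m))

lemma tail_tendsto : Tendsto (fun m : ℕ => 2 * ∑' k : ℕ, cf (k + m)) atTop (𝓝 0) := by
  have := (tendsto_sum_nat_add cf).const_mul 2
  simpa using this

lemma fm_continuous (m : ℕ) : Continuous (fm m) := by
  unfold fm
  fun_prop

lemma ff_continuousOn : ContinuousOn ff (Metric.closedBall 0 1) := by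
  have h : TendstoUniformlyOn fm ff atTop (Metric.closedBall 0 1) := by
    rw [Metric.tendstoUniformlyOn_iff]
    intro ε hε
    filter_upwards [(tail_tendsto.eventually (gt_mem_nhds hε))] with m hm z hz
    rw [dist_eq_norm]
    exact (ff_sub_fm_le (by simpa using hz) m).trans_lt hm
  exact h.continuousOn (Frequently.of_forall fun m => (fm_continuous m).continuousOn)

/-- Value on the circle. -/
lemma ff_exp {x : ℝ} (hx : x ∈ Icc (0:ℝ) 1) :
    ff (exp (2 * π * x * I)) = ((π ^ 2 * (x ^ 2 - x + 1/6) : ℝ) : ℂ) := by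
  have hB := hasSum_one_div_nat_pow_mul_cos (k := 1) one_ne_zero hx
  have hval : ((-1:ℝ)) ^ (1+1) * (2 * π) ^ (2*1) / 2 / (Nat.factorial (2*1)) *
      (Polynomial.map (algebraMap ℚ ℝ) (Polynomial.bernoulli (2*1))).eval x =
      π ^ 2 * (x ^ 2 - x + 1/6) := by
    have : (Polynomial.map (algebraMap ℚ ℝ) (Polynomial.bernoulli (2*1))).eval x =
        x ^ 2 - x + 1/6 := by
      rw [Polynomial.bernoulli_def]
      simp [Finset.sum_range_succ, bernoulli_one, bernoulli_two]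
      norm_num
      ring
    rw [this]
    have hf : (((2*1).factorial : ℕ) : ℝ) = 2 := by norm_num [Nat.factorial]
    rw [hf]
    ring
  rw [hval] at hB
  have h2 : HasSum (fun k : ℕ => (cf k : ℂ) * ((exp (2 * π * x * I)) ^ k +
      (starRingEnd ℂ (exp (2 * π * x * I))) ^ k)) ((π ^ 2 * (x ^ 2 - x + 1/6) : ℝ) : ℂ) := by
    have h3 := Complex.hasSum_ofReal.mpr hB
    refine h3.congr_fun ?_ |> fun h => h
    intro k
    have e1 : (exp (2 * π * x * I)) ^ k = exp (((2 * π * k * x : ℝ) : ℂ) * I) := by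
      rw [← Complex.exp_nat_mul]; congr 1; push_cast; ring
    have e2 : (starRingEnd ℂ (exp (2 * π * x * I))) ^ k =
        exp (-((2 * π * k * x : ℝ) : ℂ) * I) := by
      rw [← map_pow, e1, ← Complex.exp_conj, map_mul, Complex.conj_ofReal, Complex.conj_I]
      congr 1
      ring
    rw [e1, e2]
    have e3 : exp (((2 * π * k * x : ℝ) : ℂ) * I) + exp (-((2 * π * k * x : ℝ) : ℂ) * I) =
        2 * ((Real.cos (2 * π * k * x) : ℝ) : ℂ) := by
      rw [Complex.ofReal_cos, Complex.two_cos]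
    rw [e3]
    unfold cf
    push_cast
    by_cases hk : (k:ℂ) = 0
    · simp [hk]
    · field_simp
  unfold ff
  exact h2.tsum_eq

/-- Every point of the circle is `exp (2 π i x)` with `x ∈ [0, 1]`. -/
lemma exists_param {z : ℂ} (hz : ‖z‖ = 1) : ∃ x ∈ Icc (0:ℝ) 1, z = exp (2 * π * x * I) := by
  refine ⟨Int.fract (arg z / (2 * π)), ⟨Int.fract_nonneg _, (Int.fract_lt_one _).le⟩, ?_⟩
  have h1 : z = exp (arg z * I) := by
    conv_lhs => rw [← Complex.norm_mul_exp_arg_mul_I z, hz]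
    simp
  have hpi : (2 * π : ℝ) ≠ 0 := by positivity
  have h2 : (2 * (π:ℂ) * ((Int.fract (arg z / (2 * π)) : ℝ) : ℂ) * I) =
      arg z * I - (⌊arg z / (2 * π)⌋ : ℤ) * (2 * π * I) := by
    have : Int.fract (arg z / (2 * π)) = arg z / (2 * π) - ⌊arg z / (2 * π)⌋ := rfl
    rw [this]
    push_cast
    have hpi2 : (π:ℂ) ≠ 0 := by exact_mod_cast Real.pi_ne_zero
    field_simp
  rw [h2, Complex.exp_sub, Complex.exp_int_mul_two_pi_mul_I, div_one]
  exact h1

/-- Chord length. -/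
lemma chord (x y : ℝ) : ‖exp (2 * π * x * I) - exp (2 * π * y * I)‖ = 2 * |Real.sin (π * (x - y))| := by
  have h1 : exp (2 * π * x * I) - exp (2 * π * y * I) =
      exp (2 * π * y * I) * (exp (I * ((2 * π * (x - y) : ℝ) : ℂ)) - 1) := by
    rw [mul_sub, ← Complex.exp_add]
    congr 1
    · congr 1; push_cast; ring
    · ring
  rw [h1, norm_mul, Complex.norm_exp_I_mul_ofReal_sub_one]
  have h2 : ‖exp (2 * π * y * I)‖ = 1 := by
    have : (2 * π * y * I : ℂ) = ((2 * π * y : ℝ) : ℂ) * I := by push_cast; ring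
    rw [this, Complex.norm_exp_ofReal_mul_I]
  rw [h2, one_mul, Real.norm_eq_abs, abs_mul, abs_of_pos (by norm_num : (0:ℝ) < 2)]
  congr 3
  ring

lemma ff_lip {z w : ℂ} (hz : ‖z‖ = 1) (hw : ‖w‖ = 1) : ‖ff z - ff w‖ ≤ 3 * ‖z - w‖ := by
  obtain ⟨x, hx, rfl⟩ := exists_param hz
  obtain ⟨y, hy, rfl⟩ := exists_param hw
  rw [chord, ff_exp hx, ff_exp hy, ← Complex.ofReal_sub, Complex.norm_real, Real.norm_eq_abs]
  have hfac : π ^ 2 * (x ^ 2 - x + 1/6) - π ^ 2 * (y ^ 2 - y + 1/6) =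
      π ^ 2 * ((x - y) * (x + y - 1)) := by ring
  rw [hfac, abs_mul, abs_mul, abs_of_nonneg (by positivity : (0:ℝ) ≤ π ^ 2)]
  set d := |x - y| with hd
  have hd0 : 0 ≤ d := abs_nonneg _
  have hx0 := hx.1
  have hx1 := hx.2
  have hy0 := hy.1
  have hy1 := hy.2
  have hd1 : d ≤ 1 := by rw [hd, abs_le]; constructor <;> linarith
  have hs : |x + y - 1| ≤ 1 - d := by
    rw [hd, abs_le]
    rcases abs_cases (x - y) with ⟨h, _⟩ | ⟨h, _⟩ <;> rw [h] <;> constructor <;> linarith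
  have hsin : |Real.sin (π * (x - y))| = Real.sin (π * d) := by
    rcases abs_cases (x - y) with ⟨h, _⟩ | ⟨h, _⟩
    · rw [hd, h, abs_of_nonneg]
      apply Real.sin_nonneg_of_nonneg_of_le_pi
      · have := Real.pi_pos; rw [← h]; positivity
      · have := Real.pi_pos; rw [← h]; nlinarith
    · rw [hd, h, show π * (x - y) = -(π * -(x - y)) by ring, Real.sin_neg, abs_neg, abs_of_nonneg]
      apply Real.sin_nonneg_of_nonneg_of_le_pi
      · have := Real.pi_pos; rw [← h]; positivity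
      · have := Real.pi_pos; rw [← h]; nlinarith
  rw [hsin]
  have hpi := Real.pi_pos
  have hpi3 : π ^ 2 ≤ 10 := by
    have := Real.pi_lt_d2; nlinarith
  -- lower bound for the sine
  have hlow : 2 * (d * (1 - d)) ≤ Real.sin (π * d) := by
    rcases le_total d (1/2) with h | h
    · have h1 := Real.mul_le_sin (x := π * d) (by positivity) (by nlinarith)
      have h2 : 2 / π * (π * d) = 2 * d := by field_simp
      rw [h2] at h1
      nlinarith
    · have h1 := Real.mul_le_sin (x := π * (1 - d)) (by nlinarith) (by nlinarith)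
      have h2 : 2 / π * (π * (1 - d)) = 2 * (1 - d) := by field_simp
      have h3 : Real.sin (π * d) = Real.sin (π * (1 - d)) := by
        rw [← Real.sin_pi_sub]; congr 1; ring
      rw [h2] at h1
      rw [h3]
      nlinarith
  have h4 : d * |x + y - 1| ≤ d * (1 - d) := mul_le_mul_of_nonneg_left hs hd0
  have h5 : 0 ≤ d * (1 - d) := mul_nonneg hd0 (by linarith)
  nlinarith

end R213Schat
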