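import Pool.Agent.R213.Schat.Op

open Filter Topology Set Complex
open scoped Real InnerProductSpace ENNReal

namespace R213Schat

variable {H : Type*} [NormedAddCommGroup H] [InnerProductSpace ℂ H] [CompleteSpace H]
variable {b : ℕ → H}

lemma inner_PP_le_half (N : ℕ) (x y : H) :
    ‖⟪x, PP b N y⟫_ℂ‖ ≤ ∑ k ∈ Finset.range N, (‖⟪b k, x⟫_ℂ‖ ^ 2 + ‖⟪b k, y⟫_ℂ‖ ^ 2) / 2 := by
  rw [inner_PP]
  refine (norm_sum_le _ _).trans (Finset.sum_le_sum fun k _ => ?_)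
  rw [norm_mul, norm_inner_symm x (b k)]
  nlinarith [sq_nonneg (‖⟪b k, x⟫_ℂ‖ - ‖⟪b k, y⟫_ℂ‖)]

lemma inner_PP_le_one (hb : Orthonormal ℂ b) (N : ℕ) {x y : H} (hx : ‖x‖ = 1) (hy : ‖y‖ = 1) :
    ‖⟪x, PP b N y⟫_ℂ‖ ≤ 1 := by
  refine (inner_PP_le_half N x y).trans ?_
  rw [← Finset.sum_div, Finset.sum_add_distrib]
  have h1 := bessel hb N x
  have h2 := bessel hb N y
  rw [hx] at h1
  rw [hy] at h2
  linarith

/-- Upper bound of the sum in the definition of the Schatten norm. -/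
lemma sum_upper (hb : Orthonormal ℂ b) {p : ℝ} (hp : 1 ≤ p) {c : ℝ} (hc : 0 ≤ c) (N n : ℕ)
    {e f : Fin n → H} (he : Orthonormal ℂ e) (hf : Orthonormal ℂ f) :
    ∑ k, ‖⟪e k, ((c : ℂ) • PP b N) (f k)⟫_ℂ‖ ^ p ≤ c ^ p * N := by
  have h1 : ∀ k, ‖⟪e k, ((c : ℂ) • PP b N) (f k)⟫_ℂ‖ ^ p ≤
      c ^ p * ∑ j ∈ Finset.range N, (‖⟪b j, e k⟫_ℂ‖ ^ 2 + ‖⟪b j, f k⟫_ℂ‖ ^ 2) / 2 := by
    intro k
    have e1 : ((c : ℂ) • PP b N) (f k) = (c : ℂ) • PP b N (f k) := rfl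
    rw [e1, inner_smul_right, norm_mul, Complex.norm_real, Real.norm_of_nonneg hc,
      Real.mul_rpow hc (norm_nonneg _)]
    refine mul_le_mul_of_nonneg_left ?_ (Real.rpow_nonneg hc p)
    have h2 := inner_PP_le_one hb N (he.1 k) (hf.1 k)
    have h3 := Real.rpow_le_rpow_of_exponent_ge_of_imp (norm_nonneg _) h2 hp
      (fun _ h => absurd h (by linarith))
    rw [Real.rpow_one] at h3
    exact h3.trans (inner_PP_le_half N _ _)
  refine (Finset.sum_le_sum fun k _ => h1 k).trans ?_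
  rw [← Finset.mul_sum]
  refine mul_le_mul_of_nonneg_left ?_ (Real.rpow_nonneg hc p)
  rw [Finset.sum_comm]
  have h4 : ∀ j ∈ Finset.range N, ∑ k : Fin n, (‖⟪b j, e k⟫_ℂ‖ ^ 2 + ‖⟪b j, f k⟫_ℂ‖ ^ 2) / 2 ≤ 1 := by
    intro j _
    rw [← Finset.sum_div, Finset.sum_add_distrib]
    have a1 := he.sum_inner_products_le (b j) (s := Finset.univ)
    have a2 := hf.sum_inner_products_le (b j) (s := Finset.univ)
    rw [hb.1 j] at a1 a2
    have a3 : ∀ g : Fin n → H, ∑ k, ‖⟪b j, g k⟫_ℂ‖ ^ 2 = ∑ k, ‖⟪g k, b j⟫_ℂ‖ ^ 2 := fun g =>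
      Finset.sum_congr rfl fun k _ => by rw [norm_inner_symm]
    rw [a3, a3]
    linarith
  refine (Finset.sum_le_sum h4).trans ?_
  simp

/-- The Schatten norm of a multiple of a finite rank projection. -/
lemma schatten_smul_PP (hb : Orthonormal ℂ b) {p : ℝ} (hp : 1 ≤ p) {c : ℝ} (hc : 0 ≤ c) (N : ℕ) :
    schatten p ((c : ℂ) • PP b N) = ENNReal.ofReal (c * (N:ℝ) ^ (1 / p)) := by
  have hp0 : 0 < p := by linarith
  unfold schatten
  have hsup : (⨆ (n : ℕ) (e : {e : Fin n → H // Orthonormal ℂ e})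
      (f : {f : Fin n → H // Orthonormal ℂ f}),
      ∑ k, ENNReal.ofReal (‖⟪e.1 k, ((c : ℂ) • PP b N) (f.1 k)⟫_ℂ‖ ^ p)) =
      ENNReal.ofReal (c ^ p * N) := by
    apply le_antisymm
    · refine iSup_le fun n => iSup_le fun e => iSup_le fun f => ?_
      rw [← ENNReal.ofReal_sum_of_nonneg (fun k _ => by positivity)]
      exact ENNReal.ofReal_le_ofReal (sum_upper hb hp hc N n e.2 f.2)
    · have hbN : Orthonormal ℂ (fun k : Fin N => b k) := hb.comp _ Fin.val_injective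
      refine le_iSup_of_le N (le_iSup_of_le ⟨_, hbN⟩ (le_iSup_of_le ⟨_, hbN⟩ ?_))
      rw [← ENNReal.ofReal_sum_of_nonneg (fun k _ => by positivity)]
      apply ENNReal.ofReal_le_ofReal
      have h1 : ∀ k : Fin N, ‖⟪b k, ((c : ℂ) • PP b N) (b k)⟫_ℂ‖ ^ p = c ^ p := by
        intro k
        have e1 : ((c : ℂ) • PP b N) (b k) = (c : ℂ) • PP b N (b k) := rfl
        rw [e1, PP_basis hb, if_pos k.2, inner_smul_right, norm_mul, Complex.norm_real,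
          Real.norm_of_nonneg hc, inner_self_eq_norm_sq_to_K, hb.1 k]
        simp
      simp only [h1]
      simp [mul_comm]
  rw [hsup, ENNReal.ofReal_rpow_of_nonneg (by positivity) (by positivity)]
  congr 1
  rw [Real.mul_rpow (by positivity) (by positivity), ← Real.rpow_mul hc, mul_one_div_cancel hp0.ne',
    Real.rpow_one]

/-- Growth of `GG`. -/
lemma GG_lower {m : ℕ} (hm : 2 ≤ m) :
    (1 / (2 * m : ℝ)) * ∑ k ∈ Finset.range m, (1 / ((k:ℝ) + 1)) ≤ GG (1 - 1 / m) := by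
  have hm0 : (0:ℝ) < m := by positivity
  have hm1 : (1:ℝ) ≤ m := by exact_mod_cast (by omega : 1 ≤ m)
  have hr0 : (0:ℝ) ≤ 1 - 1 / m := by
    rw [sub_nonneg, div_le_one hm0]; exact hm1
  have hr1 : (1:ℝ) - 1 / m ≤ 1 := by
    have : (0:ℝ) ≤ 1 / m := by positivity
    linarith
  have h1 : ∑ k ∈ Finset.range m, 2 * cf (k+1) * (1 - (1 - 1 / (m:ℝ)) ^ (k+1)) ≤ GG (1 - 1/m) := by
    unfold GG
    have hs := summable_G hr0 hr1
    have h2 := hs.sum_le_tsum (Finset.range (m+1)) (fun k _ => by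
      have := pow_le_one₀ (n := k) hr0 hr1
      have := cf_nonneg k
      apply mul_nonneg (by positivity); linarith)
    rw [Finset.sum_range_succ'] at h2
    have : 2 * cf 0 * (1 - (1 - 1 / (m:ℝ)) ^ 0) = 0 := by simp
    linarith
  refine le_trans ?_ h1
  rw [Finset.mul_sum]
  refine Finset.sum_le_sum fun k hk => ?_
  have hkm : k + 1 ≤ m := Finset.mem_range.mp hk
  have hkm' : ((k:ℝ) + 1) ≤ m := by exact_mod_cast hkm
  have hcf : 2 * cf (k+1) = 1 / ((k:ℝ)+1) ^ 2 := by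
    unfold cf; push_cast; field_simp
  rw [hcf]
  -- (1 - 1/m)^(k+1) ≤ 1 / (1 + (k+1)/m)
  have hB : 1 + ((k:ℝ)+1) / m ≤ (1 + 1 / (m:ℝ)) ^ (k+1) := by
    have := one_add_mul_le_pow (a := 1 / (m:ℝ)) (by
      have : (0:ℝ) ≤ 1 / m := by positivity
      linarith) (k+1)
    push_cast at this
    calc 1 + ((k:ℝ)+1) / m = 1 + ((k:ℝ)+1) * (1 / m) := by ring
      _ ≤ _ := this
  have hP : (1 - 1 / (m:ℝ)) ^ (k+1) * (1 + 1 / (m:ℝ)) ^ (k+1) ≤ 1 := by
    rw [← mul_pow]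
    apply pow_le_one₀
    · exact mul_nonneg hr0 (by positivity)
    · have : (0:ℝ) ≤ (1 / m) ^ 2 := by positivity
      nlinarith
  have hr := pow_nonneg hr0 (k+1)
  set t := ((k:ℝ)+1) / m with ht
  have ht0 : 0 ≤ t := by positivity
  have ht1 : t ≤ 1 := by rw [ht, div_le_one hm0]; exact hkm'
  have hq : (1 - 1 / (m:ℝ)) ^ (k+1) * (1 + t) ≤ 1 :=
    (mul_le_mul_of_nonneg_left hB hr).trans hP
  have hq2 : t / 2 ≤ 1 - (1 - 1 / (m:ℝ)) ^ (k+1) := by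
    have : (1 - 1 / (m:ℝ)) ^ (k+1) ≤ 1 := pow_le_one₀ hr0 hr1
    by_contra hcon
    push Not at hcon
    have : (1 - t/2) * (1 + t) < 1 := by
      calc (1 - t/2) * (1+t) < (1 - 1 / (m:ℝ)) ^ (k+1) * (1 + t) := by
            apply mul_lt_mul_of_pos_right _ (by linarith)
            linarith
        _ ≤ 1 := hq
    nlinarith
  calc 1 / (2 * (m:ℝ)) * (1 / ((k:ℝ)+1)) = 1 / ((k:ℝ)+1) ^ 2 * (t / 2) := by
        rw [ht]; field_simp
    _ ≤ _ := mul_le_mul_of_nonneg_left hq2 (by positivity)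

end R213Schat
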