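import Pool.Agent.R213.Schat.F

open Filter Topology Set Complex MeasureTheory
open scoped Real

namespace R213Schat

lemma hasDerivAt_aux (t : ℝ) :
    HasDerivAt (fun t : ℝ => exp (t * I) * (((t:ℂ)^2/4 - π*t/2 + π^2/6) + I * ((t:ℂ)/2 - π/2) - 1/2))
      (exp (t * I) * I * ((t:ℂ)^2/4 - π*t/2 + π^2/6)) t := by
  have hT : HasDerivAt (fun t : ℝ => (t:ℂ)) 1 t := Complex.ofRealCLM.hasDerivAt
  have h1 : HasDerivAt (fun t : ℝ => exp ((t:ℂ) * I)) (exp (t * I) * I) t := by
    have := (hT.mul_const I).cexp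
    simpa using this
  have h2 : HasDerivAt (fun t : ℝ => (((t:ℂ)^2/4 - π*t/2 + π^2/6) + I * ((t:ℂ)/2 - π/2) - 1/2))
      (((2 * (t:ℂ))/4 - π/2) + I * (1/2)) t := by
    have a := (((hT.pow 2).div_const 4).sub ((hT.const_mul (π:ℂ)).div_const 2)).add_const ((π:ℂ)^2/6)
    have b := ((hT.div_const 2).sub_const ((π:ℂ)/2)).const_mul I
    have c := (a.add b).sub_const (1/2)
    refine (c.congr_deriv ?_)
    norm_num
  refine (h1.mul h2).congr_deriv ?_
  have hI : I * I = -1 := Complex.I_mul_I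
  linear_combination (exp (t * I)) * ((t:ℂ)/2 - π/2) * hI

lemma circle_integral_ff : (∮ z in C(0, 1), ff z) = π * I := by
  rw [circleIntegral_def_Icc, ]
  have h1 : ∀ θ ∈ Icc (0:ℝ) (2*π), deriv (circleMap 0 1) θ • ff (circleMap 0 1 θ) =
      exp (θ * I) * I * ((θ:ℂ)^2/4 - π*θ/2 + π^2/6) := by
    intro θ hθ
    have hpi := Real.pi_pos
    have hx : θ / (2*π) ∈ Icc (0:ℝ) 1 := ⟨div_nonneg hθ.1 (by positivity),
      by rw [div_le_one (by positivity)]; exact hθ.2⟩
    have h2 : circleMap 0 1 θ = exp (2 * π * ((θ/(2*π) : ℝ) : ℂ) * I) := by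
      rw [circleMap_zero]
      have hpi2 : (π:ℂ) ≠ 0 := by exact_mod_cast Real.pi_ne_zero
      push_cast
      rw [one_mul]
      congr 1
      field_simp
    rw [deriv_circleMap, smul_eq_mul]
    conv_lhs => rw [h2]
    rw [ff_exp hx, ← h2, circleMap_zero]
    push_cast
    have hpi2 : (π:ℂ) ≠ 0 := by exact_mod_cast Real.pi_ne_zero
    field_simp
    ring
  rw [setIntegral_congr_fun measurableSet_Icc h1, integral_Icc_eq_integral_Ioc,
    ← intervalIntegral.integral_of_le (by positivity)]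
  rw [intervalIntegral.integral_eq_sub_of_hasDerivAt (fun t _ => hasDerivAt_aux t)]
  · have e1 : exp (((2*π : ℝ) : ℂ) * I) = 1 := by
      have := Complex.exp_two_pi_mul_I
      push_cast
      exact this
    rw [e1]
    simp only [Complex.ofReal_zero, zero_mul, Complex.exp_zero]
    push_cast
    ring
  · apply Continuous.intervalIntegrable
    fun_prop

lemma not_disk {g : ℂ → ℂ} (hg : DiffContOnCl ℂ g (Metric.ball 0 1)) :
    ¬ ∀ z, ‖z‖ = 1 → g z = ff z := by
  intro h
  have h0 := hg.circleIntegral_eq_zero zero_le_one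
  have h1 : (∮ z in C(0, 1), g z) = ∮ z in C(0, 1), ff z := by
    apply circleIntegral.integral_congr zero_le_one
    intro z hz
    exact h z (by simpa using hz)
  rw [h1, circle_integral_ff] at h0
  have hpi2 : (π:ℂ) ≠ 0 := by exact_mod_cast Real.pi_ne_zero
  exact (mul_ne_zero hpi2 Complex.I_ne_zero) h0

end R213Schat
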