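import Pool.Agent.R213.Schat.F

open Filter Topology Set Complex
open scoped Real InnerProductSpace ENNReal

namespace R213Schat

variable {H : Type*} [NormedAddCommGroup H] [InnerProductSpace ℂ H] [CompleteSpace H]
variable {K : Type*} [NormedAddCommGroup K] [InnerProductSpace ℂ K] [CompleteSpace K]

/-- The Schatten `p`-norm (`1 ≤ p < ∞`) of a bounded operator, with value `∞` outside `S_p`, by the
classical formula `‖X‖_p ^ p = sup ∑ |⟨e_k, X f_k⟩| ^ p` over finite orthonormal families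
`e`, `f` of the same length. -/
noncomputable def schatten (p : ℝ) (X : H →L[ℂ] H) : ℝ≥0∞ :=
  (⨆ (n : ℕ) (e : {e : Fin n → H // Orthonormal ℂ e}) (f : {f : Fin n → H // Orthonormal ℂ f}),
    ∑ k, ENNReal.ofReal (‖⟪e.1 k, X (f.1 k)⟫_ℂ‖ ^ p)) ^ (1 / p)

/-- `V* A V`, the compression of `A` along the isometric embedding `V : H → K`. -/
noncomputable def compress (V : H →ₗᵢ[ℂ] K) (A : K →L[ℂ] K) : H →L[ℂ] H :=
  (ContinuousLinearMap.adjoint V.toContinuousLinearMap) ∘L A ∘L V.toContinuousLinearMap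

/-- `U` on `K` (with the isometric embedding `V : H → K`) is a unitary dilation of `T`. -/
structure IsUnitaryDilation (T : H →L[ℂ] H) (V : H →ₗᵢ[ℂ] K) (U : K →L[ℂ] K) : Prop where
  unit : U ∈ unitary (K →L[ℂ] K)
  pow : ∀ n : ℕ, compress V (U ^ n) = T ^ n
  pow_star : ∀ n : ℕ, compress V ((star U) ^ n) = (star T) ^ n

/-- Value at `z` of the trigonometric polynomial `∑_{k<m} (a_k z ^ k + b_k conj z ^ k)`. -/
noncomputable def trigVal (m : ℕ) (a b : ℕ → ℂ) (z : ℂ) : ℂ :=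
  ∑ k ∈ Finset.range m, (a k * z ^ k + b k * (starRingEnd ℂ z) ^ k)

/-- The same trigonometric polynomial at the contraction `T`: `∑ (a_k T ^ k + b_k (T*) ^ k)`. -/
noncomputable def trigOp (m : ℕ) (a b : ℕ → ℂ) (T : H →L[ℂ] H) : H →L[ℂ] H :=
  ∑ k ∈ Finset.range m, (a k • T ^ k + b k • (star T) ^ k)

/-- The finite rank projection. -/
noncomputable def PP (b : ℕ → H) (N : ℕ) : H →L[ℂ] H :=
  ∑ k ∈ Finset.range N, (innerSL ℂ (b k)).smulRight (b k)

variable {b : ℕ → H}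

lemma PP_apply (N : ℕ) (x : H) : PP b N x = ∑ k ∈ Finset.range N, ⟪b k, x⟫_ℂ • b k := by
  simp [PP]

lemma inner_PP (N : ℕ) (x y : H) :
    ⟪x, PP b N y⟫_ℂ = ∑ k ∈ Finset.range N, ⟪x, b k⟫_ℂ * ⟪b k, y⟫_ℂ := by
  rw [PP_apply, inner_sum]
  refine Finset.sum_congr rfl fun k _ => ?_
  rw [inner_smul_right]; ring

lemma PP_basis (hb : Orthonormal ℂ b) (N : ℕ) (k : ℕ) :
    PP b N (b k) = if k < N then b k else 0 := by
  rw [PP_apply]
  have h : ∀ j, ⟪b j, b k⟫_ℂ = if j = k then 1 else 0 := fun j => orthonormal_iff_ite.mp hb j k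
  simp only [h, ite_smul, one_smul, zero_smul]
  rw [Finset.sum_ite_eq']
  simp [Finset.mem_range]

lemma PP_idem (hb : Orthonormal ℂ b) (N : ℕ) : PP b N * PP b N = PP b N := by
  ext x
  change PP b N (PP b N x) = PP b N x
  conv_lhs => rw [PP_apply N x]
  rw [map_sum, PP_apply]
  refine Finset.sum_congr rfl fun k hk => ?_
  rw [map_smul, PP_basis hb, if_pos (Finset.mem_range.mp hk)]

lemma PP_star (N : ℕ) : star (PP b N) = PP b N := by
  rw [ContinuousLinearMap.star_eq_adjoint]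
  symm
  rw [ContinuousLinearMap.eq_adjoint_iff]
  intro x y
  rw [inner_PP, ← inner_conj_symm, inner_PP, map_sum]
  refine Finset.sum_congr rfl fun k _ => ?_
  rw [map_mul, inner_conj_symm, inner_conj_symm]; ring

/-- The operator `r` on the first `N` basis vectors and `1` on the rest. -/
noncomputable def TT (b : ℕ → H) (r : ℝ) (N : ℕ) : H →L[ℂ] H := 1 - ((1 - r : ℝ) : ℂ) • PP b N

lemma TT_star (r : ℝ) (N : ℕ) : star (TT b r N) = TT b r N := by
  unfold TT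
  rw [star_sub, star_smul, PP_star, star_one]
  simp

lemma TT_pow (hb : Orthonormal ℂ b) (r : ℝ) (N k : ℕ) :
    (TT b r N) ^ k = 1 - ((1 - r ^ k : ℝ) : ℂ) • PP b N := by
  induction k with
  | zero => simp
  | succ k ih =>
    rw [pow_succ, ih, TT, mul_sub, sub_mul, sub_mul, smul_mul_smul_comm, PP_idem hb]
    simp only [one_mul, mul_one]
    rw [sub_sub]
    have : ((1 - r ^ k : ℝ) : ℂ) • PP b N + (((1 - r : ℝ) : ℂ) • PP b N -
        (((1 - r ^ k : ℝ) : ℂ) * ((1 - r : ℝ) : ℂ)) • PP b N) =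
        ((1 - r ^ (k+1) : ℝ) : ℂ) • PP b N := by
      rw [← sub_smul, ← add_smul]
      congr 1
      push_cast
      ring
    rw [← this]

lemma bessel (hb : Orthonormal ℂ b) (N : ℕ) (x : H) :
    ∑ k ∈ Finset.range N, ‖⟪b k, x⟫_ℂ‖ ^ 2 ≤ ‖x‖ ^ 2 := hb.sum_inner_products_le x

/-- `‖T x‖ ^ 2 = ‖x‖ ^ 2 - (1 - r ^ 2) ∑ |⟨b_k, x⟩| ^ 2`. -/
lemma TT_contr (hb : Orthonormal ℂ b) {r : ℝ} (hr0 : 0 ≤ r) (hr1 : r ≤ 1) (N : ℕ) :
    ‖TT b r N‖ ≤ 1 := by
  refine ContinuousLinearMap.opNorm_le_bound _ zero_le_one fun x => ?_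
  rw [one_mul]
  have h1 : (‖TT b r N x‖ ^ 2 : ℝ) = ‖x‖ ^ 2 - (1 - r ^ 2) * ∑ k ∈ Finset.range N, ‖⟪b k, x⟫_ℂ‖ ^ 2 := by
    have h2 : ⟪TT b r N x, TT b r N x⟫_ℂ = ⟪x, (TT b r N ^ 2) x⟫_ℂ := by
      rw [← ContinuousLinearMap.adjoint_inner_right, ← ContinuousLinearMap.star_eq_adjoint, TT_star,
        pow_two]
      rfl
    rw [TT_pow hb] at h2
    have h3 : ⟪x, (1 - ((1 - r ^ 2 : ℝ) : ℂ) • PP b N) x⟫_ℂ =
        ((‖x‖ ^ 2 - (1 - r ^ 2) * ∑ k ∈ Finset.range N, ‖⟪b k, x⟫_ℂ‖ ^ 2 : ℝ) : ℂ) := by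
      have e : (1 - ((1 - r ^ 2 : ℝ) : ℂ) • PP b N) x = x - ((1 - r ^ 2 : ℝ) : ℂ) • PP b N x := rfl
      rw [e, inner_sub_right, inner_smul_right, inner_PP, inner_self_eq_norm_sq_to_K]
      push_cast
      congr 2
      refine Finset.sum_congr rfl fun k _ => ?_
      rw [← inner_conj_symm, mul_comm, Complex.mul_conj, Complex.normSq_eq_norm_sq]
      push_cast
      rfl
    rw [h3, inner_self_eq_norm_sq_to_K] at h2
    apply Complex.ofReal_injective
    rw [← h2]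
    push_cast
    rfl
  have h4 : 0 ≤ ∑ k ∈ Finset.range N, ‖⟪b k, x⟫_ℂ‖ ^ 2 := Finset.sum_nonneg fun k _ => by positivity
  have h5 : ‖TT b r N x‖ ^ 2 ≤ ‖x‖ ^ 2 := by
    have h6 : 0 ≤ 1 - r ^ 2 := by nlinarith
    have h7 := mul_nonneg h6 h4
    rw [h1]; linarith
  exact (pow_le_pow_iff_left₀ (norm_nonneg _) (norm_nonneg _) two_ne_zero).mp h5

lemma TT_norm (hb : Orthonormal ℂ b) {r : ℝ} (hr0 : 0 ≤ r) (hr1 : r ≤ 1) (N : ℕ) :
    ‖TT b r N‖ = 1 := by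
  refine le_antisymm (TT_contr hb hr0 hr1 N) ?_
  have h1 : TT b r N (b N) = b N := by
    have e : TT b r N (b N) = b N - ((1 - r : ℝ) : ℂ) • PP b N (b N) := rfl
    rw [e, PP_basis hb]
    simp
  have h2 := (TT b r N).le_opNorm (b N)
  rw [h1, hb.1 N, mul_one] at h2
  exact h2

/-- The real numbers entering `f(T)`. -/
noncomputable def SS : ℝ := ∑' k : ℕ, 2 * cf k
noncomputable def GG (r : ℝ) : ℝ := ∑' k : ℕ, 2 * cf k * (1 - r ^ k)

/-- The value `f(T)` for `T = TT b r N`. -/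
noncomputable def XX (b : ℕ → H) (r : ℝ) (N : ℕ) : H →L[ℂ] H :=
  ((SS : ℝ) : ℂ) • 1 - ((GG r : ℝ) : ℂ) • PP b N

lemma summable_G {r : ℝ} (hr0 : 0 ≤ r) (hr1 : r ≤ 1) :
    Summable (fun k : ℕ => 2 * cf k * (1 - r ^ k)) := by
  refine Summable.of_nonneg_of_le (fun k => ?_) (fun k => ?_) (summable_cf.mul_left 2)
  · have := pow_le_one₀ (n := k) hr0 hr1
    have := cf_nonneg k
    apply mul_nonneg (by positivity); linarith
  · have := pow_nonneg hr0 k
    have := cf_nonneg k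
    nlinarith

lemma trigOp_TT (hb : Orthonormal ℂ b) (r : ℝ) (N m : ℕ) :
    trigOp m (fun k => (cf k : ℂ)) (fun k => (cf k : ℂ)) (TT b r N) =
      ((∑ k ∈ Finset.range m, 2 * cf k : ℝ) : ℂ) • 1 -
      ((∑ k ∈ Finset.range m, 2 * cf k * (1 - r ^ k) : ℝ) : ℂ) • PP b N := by
  unfold trigOp
  rw [Complex.ofReal_sum, Complex.ofReal_sum, Finset.sum_smul, Finset.sum_smul,
    ← Finset.sum_sub_distrib]
  refine Finset.sum_congr rfl fun k _ => ?_
  rw [TT_star, TT_pow hb, ← add_smul, smul_sub, smul_smul]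
  push_cast
  congr 1 <;> congr 1 <;> ring

lemma trigOp_tendsto (hb : Orthonormal ℂ b) {r : ℝ} (hr0 : 0 ≤ r) (hr1 : r ≤ 1) (N : ℕ) :
    Tendsto (fun m => trigOp m (fun k => (cf k : ℂ)) (fun k => (cf k : ℂ)) (TT b r N)) atTop
      (𝓝 (XX b r N)) := by
  simp only [trigOp_TT hb]
  have h1 := (summable_cf.mul_left 2).hasSum.tendsto_sum_nat
  have h2 := (summable_G hr0 hr1).hasSum.tendsto_sum_nat
  have h1' := (Complex.continuous_ofReal.tendsto _).comp h1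
  have h2' := (Complex.continuous_ofReal.tendsto _).comp h2
  exact (h1'.smul_const (1 : H →L[ℂ] H)).sub (h2'.smul_const (PP b N))

end R213Schat
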