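import Pool.Agent.R213.Schat.Norm
import Pool.Agent.R213.Schat.Dil
import Pool.Agent.R213.Schat.NotDisk

open Filter Topology Set Complex
open scoped Real InnerProductSpace ENNReal

namespace R213Schat

/-- The number of modified basis vectors. -/
noncomputable def NN (p : ℝ) (m : ℕ) : ℕ := ⌊(m:ℝ) ^ p⌋₊

lemma NN_upper {p : ℝ} (hp : 1 < p) {m : ℕ} (hm : 2 ≤ m) : ((NN p m : ℕ) : ℝ) ^ (1 / p) ≤ m := by
  have hm0 : (0:ℝ) ≤ m := by positivity
  have h1 : ((NN p m : ℕ) : ℝ) ≤ (m:ℝ) ^ p := Nat.floor_le (by positivity)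
  calc ((NN p m : ℕ) : ℝ) ^ (1 / p) ≤ ((m:ℝ) ^ p) ^ (1 / p) :=
        Real.rpow_le_rpow (by positivity) h1 (by positivity)
    _ = m := by rw [← Real.rpow_mul hm0, mul_one_div_cancel (by linarith), Real.rpow_one]

lemma NN_lower {p : ℝ} (hp : 1 < p) {m : ℕ} (hm : 2 ≤ m) : (m:ℝ) / 2 ≤ ((NN p m : ℕ) : ℝ) ^ (1 / p) := by
  have hm0 : (0:ℝ) ≤ m := by positivity
  have hm2 : (2:ℝ) ≤ m := by exact_mod_cast hm
  have h0 : (2:ℝ) ≤ (m:ℝ) ^ p := by
    calc (2:ℝ) ≤ m := hm2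
      _ = (m:ℝ) ^ (1:ℝ) := (Real.rpow_one _).symm
      _ ≤ (m:ℝ) ^ p := Real.rpow_le_rpow_of_exponent_le (by linarith) hp.le
  have h1 : (m:ℝ) ^ p - 1 < ((NN p m : ℕ) : ℝ) := Nat.sub_one_lt_floor _
  have h2 : (m:ℝ) ^ p / 2 ≤ ((NN p m : ℕ) : ℝ) := by linarith
  have h3 : ((m:ℝ) / 2) ^ p ≤ (m:ℝ) ^ p / 2 := by
    rw [Real.div_rpow hm0 (by norm_num)]
    have : (2:ℝ) ≤ 2 ^ p := by
      calc (2:ℝ) = 2 ^ (1:ℝ) := (Real.rpow_one _).symm
        _ ≤ 2 ^ p := Real.rpow_le_rpow_of_exponent_le (by norm_num) hp.le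
    exact div_le_div_of_nonneg_left (by positivity) (by norm_num) this
  calc (m:ℝ) / 2 = (((m:ℝ) / 2) ^ p) ^ (1 / p) := by
        rw [← Real.rpow_mul (by positivity), mul_one_div_cancel (by linarith), Real.rpow_one]
    _ ≤ ((NN p m : ℕ) : ℝ) ^ (1 / p) := Real.rpow_le_rpow (by positivity) (h3.trans h2) (by positivity)

/-- The Schatten norms of the differences `f(T₁) - f(T₀ₙ)`. -/
noncomputable def ss (p : ℝ) (n : ℕ) : ℝ :=
  GG (1 - 1 / ((n + 2 : ℕ) : ℝ)) * ((NN p (n+2) : ℕ) : ℝ) ^ (1 / p)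

lemma ss_lower {p : ℝ} (hp : 1 < p) (n : ℕ) :
    (1/4) * ∑ k ∈ Finset.range (n+2), (1 / ((k:ℝ) + 1)) ≤ ss p n := by
  have hm : 2 ≤ n + 2 := by omega
  have h1 := GG_lower hm
  have h2 := NN_lower hp hm
  have hS : 0 ≤ ∑ k ∈ Finset.range (n+2), (1 / ((k:ℝ) + 1)) :=
    Finset.sum_nonneg fun k _ => by positivity
  have hm0 : (0:ℝ) < ((n + 2 : ℕ) : ℝ) := by positivity
  unfold ss
  calc (1/4) * ∑ k ∈ Finset.range (n+2), (1 / ((k:ℝ) + 1)) =
      (1 / (2 * ((n+2 : ℕ) : ℝ)) * ∑ k ∈ Finset.range (n+2), (1 / ((k:ℝ) + 1))) *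
        (((n+2 : ℕ) : ℝ) / 2) := by field_simp; norm_num
    _ ≤ _ := mul_le_mul h1 h2 (by positivity) (le_trans (by positivity) h1)

lemma ss_tendsto {p : ℝ} (hp : 1 < p) : Tendsto (ss p) atTop atTop := by
  refine tendsto_atTop_mono (ss_lower hp) ?_
  apply Tendsto.const_mul_atTop (by norm_num)
  exact (Real.tendsto_sum_range_one_div_nat_succ_atTop).comp (tendsto_add_atTop_nat 2)

/-- Infinite dimensional spaces contain orthonormal sequences. -/
lemma exists_orthonormal_seq (H : Type*) [NormedAddCommGroup H] [InnerProductSpace ℂ H]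
    (hinf : ¬ FiniteDimensional ℂ H) : ∃ b : ℕ → H, Orthonormal ℂ b := by
  classical
  set B := Module.Basis.ofVectorSpace ℂ H with hB
  have hI : Infinite (Module.Basis.ofVectorSpaceIndex ℂ H) := by
    by_contra h
    rw [not_infinite_iff_finite] at h
    exact hinf (Module.Finite.of_basis B)
  have hli : LinearIndependent ℂ (fun n : ℕ => B (Infinite.natEmbedding _ n)) :=
    B.linearIndependent.comp _ (Infinite.natEmbedding _).injective
  exact ⟨_, InnerProductSpace.gramSchmidtNormed_orthonormal hli⟩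

end R213Schat
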